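import Mathlib

set_option autoImplicit false

namespace Pool.Agent.H.MP_d042fc_an

open Polynomial Finset

theorem bern (φ : ℝ → ℝ) (K : ℝ) (hK : 0 ≤ K) (hφ : ∀ x y, |φ x - φ y| ≤ K * |x - y|)
    (R : ℝ) (hR : 0 < R) (m : ℕ) (hm : 0 < m) :
    ∃ q : ℝ[X], q.natDegree ≤ m ^ 2 ∧ ∀ x, |x| ≤ R → |q.eval x - φ x| ≤ 2 * K * R / m := by
  set n := m ^ 2 with hn
  have hm' : (0 : ℝ) < m := by exact_mod_cast hm
  have hn' : (n : ℝ) = (m : ℝ) ^ 2 := by simp [hn]
  let L : ℝ[X] := C (1 / (2 * R)) * X + C (1 / 2)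
  have hL : L.natDegree ≤ 1 := by
    simp only [L]
    compute_degree
  refine ⟨∑ k ∈ range (n + 1), C (φ (2 * R * (k / n) - R)) * (bernsteinPolynomial ℝ n k).comp L,
    ?_, fun x hx => ?_⟩
  · refine natDegree_sum_le_of_forall_le _ _ fun k hk => ?_
    refine (natDegree_C_mul_le _ _).trans (natDegree_comp_le.trans ?_)
    have hk' : k ≤ n := Nat.lt_succ_iff.mp (mem_range.mp hk)
    have : (bernsteinPolynomial ℝ n k).natDegree ≤ n := by
      unfold bernsteinPolynomial
      refine natDegree_mul_le.trans ?_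
      have a1 : ((n.choose k : ℝ[X]) * X ^ k).natDegree ≤ k := by
        refine natDegree_mul_le.trans ?_
        simp
      have a2 : ((1 - X : ℝ[X]) ^ (n - k)).natDegree ≤ n - k := by
        refine natDegree_pow_le.trans ?_
        have : (1 - X : ℝ[X]).natDegree ≤ 1 := by compute_degree
        simpa using Nat.mul_le_mul_left (n - k) this
      omega
    simpa using Nat.mul_le_mul this hL
  · set u : ℝ := L.eval x with hu
    have hu' : u = x / (2 * R) + 1 / 2 := by simp [hu, L]; ring
    have hx' := abs_le.mp hx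
    have u0 : 0 ≤ u := by
      rw [hu']
      have : -(1 / 2) ≤ x / (2 * R) := by rw [le_div_iff₀ (by positivity)]; linarith
      linarith
    have u1 : u ≤ 1 := by
      rw [hu']
      have : x / (2 * R) ≤ 1 / 2 := by rw [div_le_iff₀ (by positivity)]; linarith
      linarith
    have hxu : x = 2 * R * u - R := by rw [hu']; field_simp; ring
    let b : ℕ → ℝ := fun k => (bernsteinPolynomial ℝ n k).eval u
    have b0 : ∀ k, 0 ≤ b k := by
      intro k
      have : 0 ≤ 1 - u := by linarith
      simp only [b, bernsteinPolynomial, eval_mul, eval_pow, eval_X, eval_sub, eval_one,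
        eval_natCast]
      positivity
    have b1 : ∑ k ∈ range (n + 1), b k = 1 := by
      have := congrArg (eval u) (bernsteinPolynomial.sum ℝ n)
      simpa [eval_finsetSum, b] using this
    have b2 : ∑ k ∈ range (n + 1), (n * u - k) ^ 2 * b k = n * u * (1 - u) := by
      have := congrArg (eval u) (bernsteinPolynomial.variance ℝ n)
      simpa [eval_finsetSum, b] using this
    have e : eval x (∑ k ∈ range (n + 1), C (φ (2 * R * (k / n) - R)) *
        (bernsteinPolynomial ℝ n k).comp L) - φ x =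
        ∑ k ∈ range (n + 1), (φ (2 * R * (k / n) - R) - φ x) * b k := by
      simp only [eval_finsetSum, eval_mul, eval_C, eval_comp, ← hu, sub_mul, sum_sub_distrib,
        ← mul_sum, b1, mul_one, b]
    rw [e]
    refine (abs_sum_le_sum_abs _ _).trans ?_
    have h : ∀ k ∈ range (n + 1), |(φ (2 * R * (k / n) - R) - φ x) * b k| ≤
        K * R / m * b k + K * R / (m * n) * ((n * u - k) ^ 2 * b k) := by
      intro k _
      rw [abs_mul, abs_of_nonneg (b0 k)]
      have h1 := hφ (2 * R * (k / n) - R) x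
      have h2 : |2 * R * (k / n) - R - x| = 2 * R / n * |n * u - k| := by
        rw [hxu, ← abs_neg, ← abs_of_pos (show 0 < 2 * R / n by rw [hn']; positivity), ← abs_mul]
        congr 1
        rw [hn']
        field_simp
        ring
      have h3 : 2 * |n * u - k| * m ≤ n + (n * u - k) ^ 2 := by
        rw [← sq_abs (n * u - k : ℝ)]
        nlinarith [sq_nonneg (|n * u - k| - m)]
      have h4 : K * (2 * R / n * |n * u - k|) ≤ K * R / m + K * R / (m * n) * (n * u - k) ^ 2 := by
        have : K * (2 * R / n * |n * u - k|) = K * R / (m * n) * (2 * |n * u - k| * m) := by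
          rw [hn']; field_simp
        rw [this]
        refine (mul_le_mul_of_nonneg_left h3 (by positivity)).trans (le_of_eq ?_)
        rw [hn']; field_simp
      rw [h2] at h1
      have := mul_le_mul_of_nonneg_right (h1.trans h4) (b0 k)
      linarith
    refine (sum_le_sum h).trans ?_
    rw [sum_add_distrib, ← mul_sum, ← mul_sum, b1, b2]
    have h5 : K * R / (m * n) * (n * u * (1 - u)) = K * R / m * (u * (1 - u)) := by
      rw [hn']; field_simp
    have h6 : u * (1 - u) ≤ 1 := by nlinarith
    have h7 : 0 ≤ K * R / m := by positivity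
    have h8 : 2 * K * R / m = 2 * (K * R / m) := by ring
    rw [h5, h8]
    nlinarith

theorem antider (q : ℝ[X]) (c : ℝ) :
    ∃ p : ℝ[X], p.natDegree ≤ q.natDegree + 1 ∧ derivative p = q ∧ p.eval 0 = c := by
  refine ⟨C c + ∑ k ∈ range (q.natDegree + 1), monomial (k + 1) (q.coeff k / (k + 1)), ?_, ?_, ?_⟩
  · refine (natDegree_add_le _ _).trans (max_le (by simp) ?_)
    refine natDegree_sum_le_of_forall_le _ _ fun k hk => ?_
    have := mem_range.mp hk
    exact (natDegree_monomial_le _).trans (by omega)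
  · rw [derivative_add, derivative_C, zero_add, derivative_sum]
    conv_rhs => rw [q.as_sum_range]
    refine sum_congr rfl fun k _ => ?_
    rw [derivative_monomial_succ]
    congr 1
    field_simp
  · simp [eval_finsetSum]

theorem approx (g φ : ℝ → ℝ) (hg : ∀ x, HasDerivAt g (φ x) x) (K : ℝ) (hK : 0 ≤ K)
    (hφ : ∀ x y, |φ x - φ y| ≤ K * |x - y|) (R : ℝ) (hR : 0 < R) (m : ℕ) (hm : 0 < m) :
    ∃ p : ℝ[X], p.natDegree ≤ m ^ 2 + 1 ∧ ∀ x, |x| ≤ R →
      |(derivative p).eval x - φ x| ≤ 2 * K * R / m ∧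
        |p.eval x - g x| ≤ 2 * K * R / m * |x| := by
  obtain ⟨q, hq, hq2⟩ := bern φ K hK hφ R hR m hm
  obtain ⟨p, hp, hp2, hp3⟩ := antider q (g 0)
  refine ⟨p, by omega, fun x hx => ⟨by rw [hp2]; exact hq2 x hx, ?_⟩⟩
  have h := (convex_Icc (-R) R).norm_image_sub_le_of_norm_hasDerivWithin_le
    (f := fun y => p.eval y - g y) (f' := fun y => q.eval y - φ y) (C := 2 * K * R / m)
    (x := 0) (y := x)
    (fun y _ => by
      have := (p.hasDerivAt y).fun_sub (hg y)
      rw [hp2] at this
      exact this.hasDerivWithinAt)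
    (fun y hy => hq2 y (abs_le.mpr hy)) ⟨by linarith, hR.le⟩ (abs_le.mp hx)
  simpa [hp3] using h

end Pool.Agent.H.MP_d042fc_an
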