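import Mathlib

set_option autoImplicit false

namespace Pool.Agent.H.MP_d042fc_an

open Polynomial Finset

noncomputable def Q (s : ℕ → ℝ) : ℕ → ℝ[X]
  | 0 => 1
  | 1 => X
  | n + 2 => X * Q s (n + 1) - C (s (n + 2)) * Q s n

def be (s : ℕ → ℝ) (τ t : ℝ) (n : ℕ) : ℝ :=
  6 * (s n * s (n + 1) + s (n + 1) ^ 2 + 2 * s (n + 1) * s (n + 2) + s (n + 1) * s (n + 3) +
    s (n + 2) ^ 2 + 2 * s (n + 2) * s (n + 3) + s (n + 3) ^ 2 + s (n + 3) * s (n + 4)) -
    4 * τ * (s (n + 1) + s (n + 2) + s (n + 3)) - 2 * t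

def al (s : ℕ → ℝ) (τ : ℝ) (n : ℕ) : ℝ :=
  6 * (s (n + 1) + s (n + 2) + s (n + 3) + s (n + 4) + s (n + 5)) - 4 * τ

def Vd (τ t x : ℝ) : ℝ := 6 * x ^ 5 - 4 * τ * x ^ 3 - 2 * t * x

theorem Q_rec (s : ℕ → ℝ) (n : ℕ) (x : ℝ) :
    (Q s (n + 2)).eval x = x * (Q s (n + 1)).eval x - s (n + 2) * (Q s n).eval x := by
  simp [Q]

theorem Q_der (s : ℕ → ℝ) (n : ℕ) (x : ℝ) :
    (derivative (Q s (n + 2))).eval x = (Q s (n + 1)).eval x +
      x * (derivative (Q s (n + 1))).eval x - s (n + 2) * (derivative (Q s n)).eval x := by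
  simp [Q]

theorem raise (s : ℕ → ℝ) (τ t : ℝ) (h1 : s 1 = 0)
    (hE : ∀ n, s (n + 2) * be s τ t n = n + 1) (x : ℝ) (n : ℕ) :
    Vd τ t x * (Q s n).eval x - (derivative (Q s n)).eval x =
      6 * (Q s (n + 5)).eval x + al s τ n * (Q s (n + 3)).eval x +
        be s τ t n * (Q s (n + 1)).eval x := by
  induction n using Nat.twoStepInduction with
  | zero =>
    simp only [zero_add, Q_rec s 3, Q_rec s 2, Q_rec s 1, Q_rec s 0, al, be, Vd, h1]
    simp [Q]
    ring
  | one =>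
    have := hE 0
    simp only [Nat.reduceAdd, Q_rec s 4, Q_rec s 3, Q_rec s 2, Q_rec s 1, Q_rec s 0, al, be, Vd,
      h1, zero_add] at this ⊢
    simp only [Q, eval_X, eval_one, derivative_X]
    push_cast at this
    linear_combination this
  | more n ih0 ih1 =>
    have e0 := hE n
    have e1 := hE (n + 1)
    have r1 := Q_rec s (n + 5) x
    have r2 := Q_rec s (n + 3) x
    have r3 := Q_rec s (n + 1) x
    rw [Q_rec, Q_der]
    simp only [al, be, add_assoc, Nat.reduceAdd] at *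
    push_cast at e1
    linear_combination x * ih1 - s (n + 2) * ih0 - 6 * r1 -
      (6 * (s (n + 2) + (s (n + 3) + (s (n + 4) + (s (n + 5) + s (n + 6))))) - 4 * τ) * r2 -
      (6 * (s (n + 1) * s (n + 2) + (s (n + 2) ^ 2 + (2 * s (n + 2) * s (n + 3) +
        (s (n + 2) * s (n + 4) + (s (n + 3) ^ 2 + (2 * s (n + 3) * s (n + 4) +
        (s (n + 4) ^ 2 + s (n + 4) * s (n + 5)))))))) -
        4 * τ * (s (n + 2) + (s (n + 3) + s (n + 4))) - 2 * t) * r3 +
      (Q s (n + 1)).eval x * e1 - (Q s (n + 1)).eval x * e0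

theorem X_mul_mem (s : ℕ → ℝ) (k : ℕ) (p : ℝ[X])
    (hp : p ∈ Submodule.span ℝ (Q s '' {j | j ≤ k})) :
    X * p ∈ Submodule.span ℝ (Q s '' {j | j ≤ k + 1}) := by
  induction hp using Submodule.span_induction with
  | mem q hq =>
    obtain ⟨j, hj, rfl⟩ := hq
    have hj' : j ≤ k := hj
    cases j with
    | zero => exact Submodule.subset_span ⟨1, by simp, by simp [Q]⟩
    | succ j =>
      have : X * Q s (j + 1) = Q s (j + 2) + s (j + 2) • Q s j := by
        simp [Q, smul_eq_C_mul]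
      rw [this]
      exact Submodule.add_mem _ (Submodule.subset_span ⟨j + 2, by simp; omega, rfl⟩)
        (Submodule.smul_mem _ _ (Submodule.subset_span ⟨j, by simp; omega, rfl⟩))
  | zero => simp
  | add a b _ _ ha hb => rw [mul_add]; exact Submodule.add_mem _ ha hb
  | smul c a _ ha => rw [mul_smul_comm]; exact Submodule.smul_mem _ _ ha

theorem mem_span (s : ℕ → ℝ) (k : ℕ) (p : ℝ[X]) (hp : p.natDegree ≤ k) :
    p ∈ Submodule.span ℝ (Q s '' {j | j ≤ k}) := by
  have hX : ∀ m : ℕ, (X ^ m : ℝ[X]) ∈ Submodule.span ℝ (Q s '' {j | j ≤ m}) := by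
    intro m
    induction m with
    | zero => exact Submodule.subset_span ⟨0, by simp, by simp [Q]⟩
    | succ m ih => rw [pow_succ']; exact X_mul_mem s m _ ih
  rw [p.as_sum_range_C_mul_X_pow]
  refine Submodule.sum_mem _ fun i hi => ?_
  rw [← smul_eq_C_mul]
  refine Submodule.smul_mem _ _ (Submodule.span_mono (Set.image_mono fun j hj => ?_) (hX i))
  have := mem_range.mp hi
  simp only [Set.mem_ofPred_eq] at hj ⊢
  omega

def ex {N : ℕ} (v : Fin N → ℝ) (n : ℕ) : ℝ := if h : n < N then v ⟨n, h⟩ else 0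

theorem sum_ex {N : ℕ} (v : Fin N → ℝ) (m : ℕ) (c : ℝ) :
    ∑ j : Fin N, (if (j : ℕ) = m then c else 0) * v j = c * ex v m := by
  unfold ex
  split_ifs with h
  · rw [sum_eq_single ⟨m, h⟩]
    · simp
    · intro j _ hj
      rw [if_neg (fun e => hj (Fin.ext e)), zero_mul]
    · simp
  · rw [mul_zero]
    refine sum_eq_zero fun j _ => ?_
    rw [if_neg (fun e : (j : ℕ) = m => h (e ▸ j.2)), zero_mul]

def Jm (a : ℕ → ℝ) (N : ℕ) : Matrix (Fin N) (Fin N) ℝ := Matrix.of fun i j =>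
  (if (j : ℕ) = i + 1 then a (i + 1) else 0) + (if (i : ℕ) = j + 1 then a (j + 1) else 0)

theorem Jm_herm (a : ℕ → ℝ) (N : ℕ) : (Jm a N).IsHermitian := by
  ext i j
  simp [Jm, add_comm]

theorem Jm_mul (a : ℕ → ℝ) (h0 : a 0 = 0) {N : ℕ} (v : Fin N → ℝ) (i : Fin N) :
    (Jm a N).mulVec v i = a (i + 1) * ex v (i + 1) + a i * ex v (i - 1) := by
  simp only [Matrix.mulVec, dotProduct, Jm, Matrix.of_apply, add_mul, sum_add_distrib, sum_ex]
  congr 1
  rw [← sum_ex]
  refine sum_congr rfl fun j _ => ?_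
  congr 1
  obtain ⟨i, hi⟩ := i
  cases i with
  | zero => simp [h0]
  | succ i =>
    simp only [Nat.add_right_cancel_iff, Nat.add_sub_cancel]
    by_cases h : i = j
    · simp [h]
    · simp [h, Ne.symm h]

theorem quad (s : ℕ → ℝ) (h1 : s 1 = 0) (hs : ∀ n, 0 ≤ s n) (N : ℕ) (hN : 0 < N) (B : ℝ)
    (hB : ∀ n ≤ N + 1, s n ≤ B) :
    ∃ l w : Fin N → ℝ, (∀ i, 0 ≤ w i) ∧ (∀ i, |l i| ≤ 2 * Real.sqrt B) ∧
      ∀ n < N, ∑ i, w i * (Q s n).eval (l i) = if n = 0 then 1 else 0 := by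
  let a : ℕ → ℝ := fun n => Real.sqrt (s (n + 1))
  have a0 : a 0 = 0 := by simp [a, h1]
  have aa : ∀ n, a n * a n = s (n + 1) := fun n => Real.mul_self_sqrt (hs _)
  have hH := Jm_herm a N
  let l := hH.eigenvalues
  let v : Fin N → Fin N → ℝ := fun i => ⇑(hH.eigenvectorBasis i)
  have hev : ∀ i (n : ℕ), n < N →
      l i * ex (v i) n = a (n + 1) * ex (v i) (n + 1) + a n * ex (v i) (n - 1) := by
    intro i n hn
    have h := congrFun (hH.mulVec_eigenvectorBasis i) ⟨n, hn⟩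
    rw [Jm_mul a a0] at h
    rw [h]
    simp [ex, hn, l, v]
  have hcomp : ∀ m n : Fin N, ∑ i, v i m * v i n = if m = n then 1 else 0 := by
    intro m n
    have h := congrFun (congrFun (Matrix.mem_unitaryGroup_iff.mp hH.eigenvectorUnitary.2) m) n
    simpa [Matrix.mul_apply, Matrix.one_apply, v] using h
  have hQ : ∀ i (n : ℕ), n ≤ N →
      (Q s n).eval (l i) * ex (v i) 0 = (∏ k ∈ range n, a (k + 1)) * ex (v i) n := by
    intro i n
    induction n using Nat.twoStepInduction with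
    | zero => intro _; simp [Q]
    | one => intro _; simpa [Q, a0] using hev i 0 hN
    | more n ih0 ih1 =>
      intro hn
      have e0 := ih0 (by omega)
      have e1 := ih1 (by omega)
      have e2 := hev i (n + 1) (by omega)
      have e3 := aa (n + 1)
      rw [Q_rec]
      simp only [prod_range_succ, Nat.add_sub_cancel] at *
      linear_combination l i * e1 - s (n + 2) * e0 +
        ((∏ k ∈ range n, a (k + 1)) * a (n + 1)) * e2 +
        ((∏ k ∈ range n, a (k + 1)) * ex (v i) n) * e3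
  refine ⟨l, fun i => v i ⟨0, hN⟩ ^ 2, fun i => sq_nonneg _, fun i => ?_, fun n hn => ?_⟩
  · have : Nonempty (Fin N) := ⟨⟨0, hN⟩⟩
    obtain ⟨m, hm⟩ := Finite.exists_max fun j => |v i j|
    have hpos : 0 < |v i m| := by
      by_contra h
      have h2 : ∀ j, v i j = 0 := fun j =>
        abs_eq_zero.mp (le_antisymm ((hm j).trans (not_lt.mp h)) (abs_nonneg _))
      refine hH.eigenvectorBasis.toBasis.ne_zero i ?_
      ext j
      simpa using h2 j
    have hex : ∀ n, |ex (v i) n| ≤ |v i m| := by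
      intro n
      unfold ex
      split_ifs
      · exact hm _
      · simp
    have hab : ∀ n ≤ N, 0 ≤ a n ∧ a n ≤ Real.sqrt B := fun n hn =>
      ⟨Real.sqrt_nonneg _, Real.sqrt_le_sqrt (hB _ (by omega))⟩
    have e := hev i m m.2
    have e1 : ex (v i) m = v i m := by simp [ex]
    rw [e1] at e
    have b1 := hab (m + 1) m.2
    have b2 := hab m m.2.le
    have b3 : |l i| * |v i m| ≤ 2 * Real.sqrt B * |v i m| := by
      rw [← abs_mul, e]
      refine (abs_add_le _ _).trans ?_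
      rw [abs_mul, abs_mul, abs_of_nonneg b1.1, abs_of_nonneg b2.1]
      have c1 := mul_le_mul b1.2 (hex (m + 1)) (abs_nonneg _) (Real.sqrt_nonneg _)
      have c2 := mul_le_mul b2.2 (hex (m - 1)) (abs_nonneg _) (Real.sqrt_nonneg _)
      linarith
    exact le_of_mul_le_mul_right b3 hpos
  · have h : ∀ i, v i ⟨0, hN⟩ ^ 2 * (Q s n).eval (l i) =
        (∏ k ∈ range n, a (k + 1)) * (v i ⟨0, hN⟩ * v i ⟨n, hn⟩) := by
      intro i
      have := hQ i n hn.le
      simp only [ex, hN, hn, dif_pos] at this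
      linear_combination v i ⟨0, hN⟩ * this
    simp only [h, ← mul_sum, hcomp]
    by_cases e : n = 0
    · simp [e]
    · simp [e, Fin.ext_iff, Ne.symm e]

theorem pearson (s : ℕ → ℝ) (τ t : ℝ) (h1 : s 1 = 0)
    (hE : ∀ n, s (n + 2) * be s τ t n = n + 1) {N : ℕ} (l w : Fin N → ℝ)
    (hQ : ∀ n < N, ∑ i, w i * (Q s n).eval (l i) = if n = 0 then 1 else 0)
    (k : ℕ) (hk : k + 5 < N) (p : ℝ[X]) (hp : p.natDegree ≤ k) :
    ∑ i, w i * (Vd τ t (l i) * p.eval (l i) - (derivative p).eval (l i)) = 0 := by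
  have hm := mem_span s k p hp
  clear hp
  induction hm using Submodule.span_induction with
  | mem q hq =>
    obtain ⟨j, hj, rfl⟩ := hq
    have hj' : j ≤ k := hj
    have e1 := hQ (j + 5) (by omega)
    have e2 := hQ (j + 3) (by omega)
    have e3 := hQ (j + 1) (by omega)
    simp only [Nat.add_eq_zero_iff, OfNat.ofNat_ne_zero, one_ne_zero, and_false, if_false]
      at e1 e2 e3
    simp only [raise s τ t h1 hE, mul_add, sum_add_distrib, mul_left_comm (w _), ← mul_sum,
      e1, e2, e3]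
    simp
  | zero => simp
  | add a b _ _ ha hb =>
    rw [← add_zero (0 : ℝ)]
    nth_rewrite 1 [← ha]
    rw [← hb, ← sum_add_distrib]
    refine sum_congr rfl fun i _ => ?_
    simp only [derivative_add, eval_add]
    ring
  | smul c a _ ha =>
    rw [← mul_zero c, ← ha, mul_sum]
    refine sum_congr rfl fun i _ => ?_
    simp only [derivative_smul, eval_smul, smul_eq_mul]
    ring

end Pool.Agent.H.MP_d042fc_an
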