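import Mathlib
import Pool.Agent.H.MP_d042fc_an.Quad
import Pool.Agent.H.MP_d042fc_an.Approx

set_option autoImplicit false

namespace Pool.Agent.H.MP_d042fc_an

open Polynomial Finset

theorem sbound (s : ℕ → ℝ) (τ t : ℝ) (hs : ∀ n, 0 ≤ s n)
    (hE : ∀ n, s (n + 2) * be s τ t n = n + 1) (n : ℕ) :
    s (n + 2) ^ 2 ≤ n + 1 + (2 * τ ^ 2 + 2 * |t| + 1) := by
  have hn : (0 : ℝ) ≤ n := Nat.cast_nonneg n
  have ht := abs_nonneg t
  by_cases h : s (n + 2) ≤ 1
  · have := hs (n + 2)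
    nlinarith [sq_nonneg τ]
  · push Not at h
    have e := hE n
    have hb : be s τ t n ≤ n + 1 := by
      by_contra h2
      push Not at h2
      nlinarith
    unfold be at hb
    have a0 := hs n
    have a1 := hs (n + 1)
    have a3 := hs (n + 3)
    have a4 := hs (n + 4)
    have c1 := mul_nonneg a0 a1
    have c2 := mul_nonneg a3 a4
    have c3 := le_abs_self t
    have c4 : s (n + 2) ^ 2 ≤ (s (n + 1) + s (n + 2) + s (n + 3)) ^ 2 := by nlinarith
    have c5 := sq_nonneg (s (n + 1) + s (n + 2) + s (n + 3) - τ)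
    have c6 := sq_nonneg (s (n + 1) - s (n + 3))
    have c7 := mul_nonneg a1 (hs (n + 2))
    have c8 := mul_nonneg a3 (hs (n + 2))
    nlinarith [sq_nonneg (s (n + 2)), sq_nonneg (s (n + 1)), sq_nonneg (s (n + 3))]

theorem disc (s : ℕ → ℝ) (τ t : ℝ) (h0 : s 0 = 0) (h1 : s 1 = 0) (hs : ∀ n, 0 ≤ s n)
    (hE : ∀ n, s (n + 2) * be s τ t n = n + 1) :
    ∃ m6 C D : ℝ, ∀ M : ℕ, 0 < M → ∃ (N : ℕ) (l w : Fin N → ℝ), (∀ i, 0 ≤ w i) ∧
      ∑ i, w i = 1 ∧ ∑ i, w i * l i ^ 2 = s 2 ∧ ∑ i, w i * l i ^ 4 = s 2 * (s 2 + s 3) ∧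
      ∑ i, w i * l i ^ 6 = m6 ∧ ∀ (g φ : ℝ → ℝ) (K : ℝ), (∀ x, HasDerivAt g (φ x) x) → 0 ≤ K →
        (∀ x y, |φ x - φ y| ≤ K * |x - y|) →
          |∑ i, w i * (Vd τ t (l i) * g (l i) - φ (l i))| ≤ K * ((M + D) / M ^ 2) * C := by
  set D : ℝ := 2 * τ ^ 2 + 2 * |t| + 10 with hD
  have hD1 : 10 ≤ D := by have := abs_nonneg t; nlinarith [sq_nonneg τ]
  set m6 : ℝ := (1 + 4 * τ * (s 2 * (s 2 + s 3)) + 2 * t * s 2) / 6 with hm6
  refine ⟨m6, 4 * (6 * m6 + 4 * |τ| * (s 2 * (s 2 + s 3)) + 2 * |t| * s 2 + 1), D,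
    fun M hM => ?_⟩
  have hM' : (0 : ℝ) < M := by exact_mod_cast hM
  have hB : ∀ n ≤ (M ^ 2) ^ 2 + 7 + 1, s n ≤ (M + D) ^ 2 := by
    intro n hn
    rcases n with _ | _ | n
    · rw [h0]; positivity
    · rw [zero_add, h1]; positivity
    · have a := sbound s τ t hs hE n
      have b : (n : ℝ) ≤ (M ^ 2) ^ 2 + 6 := by exact_mod_cast (by omega : n ≤ (M ^ 2) ^ 2 + 6)
      have c : s (n + 2) ≤ M ^ 2 + D := by
        refine (abs_le_of_sq_le_sq' ?_ (by positivity)).2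
        have : (0 : ℝ) ≤ M ^ 2 := by positivity
        nlinarith
      have d : (M : ℝ) ^ 2 + D ≤ (M + D) ^ 2 := by nlinarith
      exact c.trans d
  obtain ⟨l, w, hw, hl, hQ⟩ := quad s h1 hs ((M ^ 2) ^ 2 + 7) (by omega) _ hB
  rw [Real.sqrt_sq (by positivity)] at hl
  have q0 : ∑ i, w i = 1 := by simpa [Q] using hQ 0 (by omega)
  have q2 : ∑ i, w i * l i ^ 2 = s 2 := by
    have h := hQ 2 (by omega)
    have e : ∀ i, w i * (Q s 2).eval (l i) = w i * l i ^ 2 - s 2 * w i := by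
      intro i; simp [Q]; ring
    simp only [e, sum_sub_distrib, ← mul_sum, q0] at h
    simp at h
    linarith
  have q4 : ∑ i, w i * l i ^ 4 = s 2 * (s 2 + s 3) := by
    have h := hQ 4 (by omega)
    have e : ∀ i, w i * (Q s 4).eval (l i) =
        w i * l i ^ 4 - (s 2 + s 3 + s 4) * (w i * l i ^ 2) + s 4 * s 2 * w i := by
      intro i; simp [Q]; ring
    simp only [e, sum_sub_distrib, sum_add_distrib, ← mul_sum, q0, q2] at h
    simp at h
    linarith
  have q6 : ∑ i, w i * l i ^ 6 = m6 := by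
    have h := pearson s τ t h1 hE l w hQ 1 (by omega) X (by simp)
    have e : ∀ i, w i * (Vd τ t (l i) * (X : ℝ[X]).eval (l i) - (derivative X : ℝ[X]).eval (l i)) =
        6 * (w i * l i ^ 6) - 4 * τ * (w i * l i ^ 4) - 2 * t * (w i * l i ^ 2) - w i := by
      intro i; simp [Vd]; ring
    simp only [e, sum_sub_distrib, ← mul_sum, q0, q2, q4] at h
    rw [hm6]
    linarith
  refine ⟨_, l, w, hw, q0, q2, q4, q6, fun g φ K hg hK hφ => ?_⟩
  obtain ⟨p, hp, hp2⟩ := approx g φ hg K hK hφ (2 * (M + D)) (by positivity) (M ^ 2)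
    (by positivity)
  have h := pearson s τ t h1 hE l w hQ _ (by omega) p hp
  set ε : ℝ := 2 * K * (2 * (M + D)) / (M ^ 2 : ℕ) with hε
  have ε0 : 0 ≤ ε := by positivity
  rw [← sub_zero (∑ i, _), ← h, ← sum_sub_distrib]
  refine (abs_sum_le_sum_abs _ _).trans ?_
  have key : ∀ i ∈ univ, |w i * (Vd τ t (l i) * g (l i) - φ (l i)) -
      w i * (Vd τ t (l i) * p.eval (l i) - (derivative p).eval (l i))| ≤
      ε * (6 * (w i * l i ^ 6) + 4 * |τ| * (w i * l i ^ 4) + 2 * |t| * (w i * l i ^ 2) + w i) := by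
    intro i _
    obtain ⟨a, b⟩ := hp2 (l i) (hl i)
    have c : |Vd τ t (l i)| * |l i| ≤ 6 * l i ^ 6 + 4 * |τ| * l i ^ 4 + 2 * |t| * l i ^ 2 := by
      rw [← abs_mul, abs_le]
      have c1 := le_abs_self τ
      have c2 := neg_abs_le τ
      have c3 := le_abs_self t
      have c4 := neg_abs_le t
      have c5 : 0 ≤ l i ^ 2 := by positivity
      have c6 : 0 ≤ l i ^ 4 := by positivity
      have c7 : 0 ≤ l i ^ 6 := by positivity
      unfold Vd
      constructor <;> nlinarith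
    have d : |(Vd τ t (l i) * g (l i) - φ (l i)) -
        (Vd τ t (l i) * p.eval (l i) - (derivative p).eval (l i))| ≤
        |Vd τ t (l i)| * (ε * |l i|) + ε := by
      have : (Vd τ t (l i) * g (l i) - φ (l i)) -
          (Vd τ t (l i) * p.eval (l i) - (derivative p).eval (l i)) =
          -(Vd τ t (l i) * (p.eval (l i) - g (l i))) + ((derivative p).eval (l i) - φ (l i)) := by
        ring
      rw [this]
      refine (abs_add_le _ _).trans (add_le_add ?_ a)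
      rw [abs_neg, abs_mul]
      exact mul_le_mul_of_nonneg_left b (abs_nonneg _)
    rw [← mul_sub, abs_mul, abs_of_nonneg (hw i)]
    have e := mul_le_mul_of_nonneg_left c ε0
    have f := mul_le_mul_of_nonneg_left (d.trans (show _ ≤ ε * (6 * l i ^ 6 + 4 * |τ| * l i ^ 4 +
      2 * |t| * l i ^ 2) + ε by linarith)) (hw i)
    linarith
  refine (sum_le_sum key).trans (le_of_eq ?_)
  simp only [← mul_sum, sum_add_distrib, q0, q2, q4, q6, hε]
  push_cast
  ring

end Pool.Agent.H.MP_d042fc_an
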