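import Mathlib
import Pool.Agent.H.MP_d042fc_an.Disc

set_option autoImplicit false

namespace Pool.Agent.H.MP_d042fc_an

open MeasureTheory Finset

noncomputable def om (τ t x : ℝ) : ℝ := Real.exp (-x ^ 6 + τ * x ^ 4 + t * x ^ 2)

theorem om_cd (τ t : ℝ) : ContDiff ℝ 1 (om τ t) := by
  unfold om
  fun_prop

theorem integ (τ t : ℝ) (j : ℕ) : Integrable fun x : ℝ => x ^ (2 * j) * om τ t x := by
  set a : ℝ := |τ| + |t| + 3 with ha
  have t0 := abs_nonneg t
  have τ0 := abs_nonneg τ
  refine ((integrable_exp_neg_mul_sq (b := 1) one_pos).const_mul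
    (j.factorial * Real.exp (a ^ 3))).mono' ?_ (Filter.Eventually.of_forall fun x => ?_)
  · exact ((continuous_pow _).mul (om_cd τ t).continuous).aestronglyMeasurable
  · have y0 : 0 ≤ x ^ 2 := sq_nonneg x
    have h1 := Real.pow_div_factorial_le_exp (x ^ 2) y0 j
    rw [div_le_iff₀ (by positivity)] at h1
    have h2 : -x ^ 6 + τ * x ^ 4 + t * x ^ 2 + x ^ 2 ≤ a ^ 3 + -1 * x ^ 2 := by
      have e4 : x ^ 4 = (x ^ 2) ^ 2 := by ring
      have e6 : x ^ 6 = (x ^ 2) ^ 3 := by ring
      rw [e4, e6]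
      generalize x ^ 2 = y at y0
      have c1 := mul_le_mul_of_nonneg_right (le_abs_self τ) (sq_nonneg y)
      have c2 := mul_le_mul_of_nonneg_right (le_abs_self t) y0
      have c3 : 0 ≤ y ^ 3 := by positivity
      have a3 : 3 ≤ a := by linarith
      by_cases h : y ≤ a
      · have d1 : y ^ 2 ≤ a ^ 2 := by gcongr
        have d2 : y ≤ a ^ 2 := by nlinarith
        have d3 := mul_le_mul_of_nonneg_left d1 τ0
        have d4 := mul_le_mul_of_nonneg_left d2 t0
        have : a ^ 3 = (|τ| + |t| + 3) * a ^ 2 := by rw [← ha]; ring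
        nlinarith
      · push Not at h
        have d2 : y ≤ y ^ 2 := by nlinarith
        have d3 := mul_le_mul_of_nonneg_left d2 t0
        have d4 := mul_le_mul_of_nonneg_right h.le (sq_nonneg y)
        have : 0 ≤ a ^ 3 := by positivity
        rw [ha] at d4
        nlinarith
    rw [Real.norm_of_nonneg (by rw [pow_mul]; unfold om; positivity), pow_mul, om]
    calc (x ^ 2) ^ j * Real.exp (-x ^ 6 + τ * x ^ 4 + t * x ^ 2)
        ≤ (Real.exp (x ^ 2) * j.factorial) * Real.exp (-x ^ 6 + τ * x ^ 4 + t * x ^ 2) := by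
          gcongr
      _ = j.factorial * Real.exp (-x ^ 6 + τ * x ^ 4 + t * x ^ 2 + x ^ 2) := by
          rw [Real.exp_add _ (x ^ 2)]; ring
      _ ≤ j.factorial * Real.exp (a ^ 3 + -1 * x ^ 2) := by gcongr
      _ = _ := by rw [Real.exp_add]; ring

theorem stein (τ t : ℝ) (h : ℝ → ℝ) (hh : ContDiff ℝ 1 h) (A : ℝ)
    (hA : ∀ x, A ≤ |x| → h x = 0) (hint : ∫ x, h x * om τ t x = 0) :
    ∃ (g φ : ℝ → ℝ) (K : ℝ), (∀ x, HasDerivAt g (φ x) x) ∧ 0 ≤ K ∧
      (∀ x y, |φ x - φ y| ≤ K * |x - y|) ∧ ∀ x, φ x = Vd τ t x * g x + h x := by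
  have hc : Continuous fun x => h x * om τ t x := hh.continuous.mul (om_cd τ t).continuous
  let G : ℝ → ℝ := fun x => ∫ y in (-A)..x, h y * om τ t y
  have hG : ∀ x, HasDerivAt G (h x * om τ t x) x := fun x =>
    (hc.integral_hasStrictDerivAt (-A) x).hasDerivAt
  have hG1 : ContDiff ℝ 1 G := by
    rw [contDiff_one_iff_deriv]
    refine ⟨fun x => (hG x).differentiableAt, ?_⟩
    rwa [show deriv G = fun x => h x * om τ t x from funext fun x => (hG x).deriv]
  have hG0 : ∀ x, A ≤ |x| → G x = 0 := by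
    intro x hx
    rcases le_abs.mp hx with h1 | h1
    · simp only [G]
      rw [intervalIntegral.integral_eq_integral_of_support_subset, hint]
      intro y hy
      have : ¬ A ≤ |y| := fun e => hy (by simp [hA y e])
      have := abs_lt.mp (not_le.mp this)
      exact ⟨this.1, by linarith⟩
    · simp only [G]
      rw [intervalIntegral.integral_congr (g := fun _ => 0)]
      · simp
      · intro y hy
        rw [Set.uIcc_of_ge (by linarith)] at hy
        have : A ≤ |y| := le_abs.mpr (Or.inr (by linarith [hy.2]))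
        simp [hA y this]
  let E : ℝ → ℝ := fun x => Real.exp (x ^ 6 - τ * x ^ 4 - t * x ^ 2)
  have hE : ∀ x, HasDerivAt E (E x * Vd τ t x) x := by
    intro x
    have := (((hasDerivAt_pow 6 x).fun_sub ((hasDerivAt_pow 4 x).const_mul τ)).fun_sub
      ((hasDerivAt_pow 2 x).const_mul t)).exp
    convert this using 1
    simp [Vd, E]
    ring
  have hEo : ∀ x, E x * om τ t x = 1 := by
    intro x
    simp only [E, om]
    rw [← Real.exp_add, ← Real.exp_zero]
    congr 1
    ring
  have hφ : ContDiff ℝ 1 fun x => Vd τ t x * (E x * G x) + h x := by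
    unfold Vd
    fun_prop
  have hs : HasCompactSupport fun x => Vd τ t x * (E x * G x) + h x := by
    refine HasCompactSupport.intro (isCompact_Icc (a := -A) (b := A)) fun x hx => ?_
    have : A ≤ |x| := by
      by_contra e
      have := abs_lt.mp (not_le.mp e)
      exact hx ⟨this.1.le, this.2.le⟩
    simp [hA x this, hG0 x this]
  obtain ⟨K, hK⟩ := ContDiff.lipschitzWith_of_hasCompactSupport hs hφ one_ne_zero
  refine ⟨fun x => E x * G x, fun x => Vd τ t x * (E x * G x) + h x, K, fun x => ?_, K.2,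
    fun x y => hK.dist_le_mul x y, fun x => rfl⟩
  refine ((hE x).fun_mul (hG x)).congr_deriv ?_
  linear_combination (h x) * hEo x

theorem cut (A : ℝ) (A0 : 0 < A) : ∃ χ : ℝ → ℝ, ContDiff ℝ 1 χ ∧
    (∀ x, A + 1 ≤ |x| → χ x = 0) ∧ (∀ x, 0 ≤ χ x ∧ χ x ≤ 1) ∧
      ∀ (j : ℕ) x, |x ^ (2 * j) - χ x * x ^ (2 * j)| ≤ x ^ (2 * (j + 1)) / A ^ 2 := by
  let b : ContDiffBump (0 : ℝ) := ⟨A, A + 1, A0, by linarith⟩
  refine ⟨b, b.contDiff, fun x hx => b.zero_of_le_dist (by simpa [b] using hx),
    fun x => ⟨b.nonneg, b.le_one⟩, fun j x => ?_⟩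
  have p0 : 0 ≤ x ^ (2 * j) := by rw [pow_mul]; positivity
  have e : x ^ (2 * (j + 1)) = x ^ (2 * j) * x ^ 2 := by ring
  by_cases h : |x| ≤ A
  · rw [b.one_of_mem_closedBall (by simpa [b] using h), e]
    simp only [one_mul, sub_self, abs_zero]
    positivity
  · have h1 : A ^ 2 ≤ x ^ 2 := by
      rw [← sq_abs x]
      have := (not_le.mp h).le
      gcongr
    have h2 := b.nonneg (x := x)
    have h3 := b.le_one (x := x)
    rw [abs_of_nonneg (by nlinarith), le_div_iff₀ (by positivity), e]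
    have h4 := mul_nonneg h2 p0
    have h5 := mul_le_mul_of_nonneg_left h1 p0
    nlinarith [mul_nonneg h4 (sq_nonneg A)]

theorem main (s : ℕ → ℝ) (τ t : ℝ) (h0 : s 0 = 0) (h1 : s 1 = 0) (hs : ∀ n, 0 ≤ s n)
    (hE : ∀ n, s (n + 2) * be s τ t n = n + 1) :
    s 2 * ∫ x, x ^ 0 * om τ t x = ∫ x, x ^ 2 * om τ t x ∧
      s 2 * (s 2 + s 3) * ∫ x, x ^ 0 * om τ t x = ∫ x, x ^ 4 * om τ t x := by
  obtain ⟨m6, C, D, H⟩ := disc s τ t h0 h1 hs hE
  let μ : ℕ → ℝ := fun j => ∫ x, x ^ (2 * j) * om τ t x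
  have om0 : ∀ x, 0 ≤ om τ t x := fun x => (Real.exp_pos _).le
  have key : ∀ (j : ℕ) (m m' : ℝ), (∀ (N : ℕ) (l w : Fin N → ℝ), ∑ i, w i * l i ^ 2 = s 2 →
      ∑ i, w i * l i ^ 4 = s 2 * (s 2 + s 3) → ∑ i, w i * l i ^ 6 = m6 →
      ∑ i, w i * l i ^ (2 * j) = m ∧ ∑ i, w i * l i ^ (2 * (j + 1)) = m') → m * μ 0 = μ j := by
    intro j m m' hm
    have step : ∀ A : ℝ, 1 ≤ A → |m * μ 0 - μ j| ≤
        (|m| * μ 1 + μ (j + 1) + (μ 0 + μ 1) * m' + (μ j + μ (j + 1)) * s 2) / A ^ 2 := by
      intro A A1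
      have A0 : 0 < A := by linarith
      have A2 : 1 ≤ A ^ 2 := by nlinarith
      obtain ⟨χ, c1, c2, c3, c4⟩ := cut A A0
      let I : ℕ → ℝ := fun k => ∫ x, χ x * x ^ (2 * k) * om τ t x
      have iI : ∀ k : ℕ, Integrable fun x => χ x * x ^ (2 * k) * om τ t x := by
        intro k
        simp only [mul_assoc]
        refine (integ τ t k).bdd_mul (c := 1) c1.continuous.aestronglyMeasurable
          (Filter.Eventually.of_forall fun x => ?_)
        rw [Real.norm_of_nonneg (c3 x).1]
        exact (c3 x).2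
      have μ0 : ∀ k, 0 ≤ μ k := fun k => integral_nonneg fun x => by
        have := om0 x
        simp only [pow_mul, Pi.zero_apply]
        positivity
      have hI : ∀ k, |μ k - I k| ≤ μ (k + 1) / A ^ 2 := by
        intro k
        simp only [μ, I]
        rw [← integral_sub (integ τ t k) (iI k), ← integral_div]
        rw [← Real.norm_eq_abs]
        refine norm_integral_le_of_norm_le ((integ τ t (k + 1)).div_const _)
          (Filter.Eventually.of_forall fun x => ?_)
        rw [← sub_mul, norm_mul, Real.norm_of_nonneg (om0 x), mul_div_right_comm]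
        exact mul_le_mul_of_nonneg_right (c4 k x) (om0 x)
      have hI2 : ∀ k, |I k| ≤ μ k + μ (k + 1) := by
        intro k
        have a := abs_le.mp (hI k)
        have b : μ (k + 1) / A ^ 2 ≤ μ (k + 1) := div_le_self (μ0 _) A2
        have := μ0 k
        rw [abs_le]
        constructor <;> linarith [a.1, a.2]
      obtain ⟨g, φ, K, g1, g2, g3, g4⟩ := stein τ t
        (fun x => I 0 * (χ x * x ^ (2 * j)) - I j * (χ x * x ^ (2 * 0))) (by fun_prop) (A + 1)
        (fun x hx => by simp [c2 x hx]) (by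
          simp only [sub_mul, mul_assoc (I _)]
          rw [integral_sub ((iI j).const_mul _) ((iI 0).const_mul _), integral_const_mul,
            integral_const_mul]
          simp only [I]
          ring)
      have lim : Filter.Tendsto (fun M : ℕ => K * ((M + D) / (M : ℝ) ^ 2) * C) Filter.atTop
          (nhds 0) := by
        have a : Filter.Tendsto (fun M : ℕ => (M : ℝ)⁻¹) Filter.atTop (nhds 0) :=
          tendsto_inv_atTop_nhds_zero_nat
        have b := ((a.add ((a.pow 2).const_mul D)).const_mul K).mul_const C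
        simp only [ne_eq, OfNat.ofNat_ne_zero, not_false_eq_true, zero_pow, mul_zero, add_zero,
          zero_mul] at b
        refine b.congr' ?_
        filter_upwards [Filter.eventually_gt_atTop 0] with M hM
        have : (M : ℝ) ≠ 0 := by positivity
        field_simp
      have fin : |m * I 0 - I j| ≤ ((μ 0 + μ 1) * m' + (μ j + μ (j + 1)) * s 2) / A ^ 2 := by
        rw [← sub_nonpos]
        refine ge_of_tendsto lim ?_
        filter_upwards [Filter.eventually_gt_atTop 0] with M hM
        obtain ⟨N, l, w, w0, w1, w2, w4, w6, hw⟩ := H M hM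
        obtain ⟨e1, e2⟩ := hm N l w w2 w4 w6
        have f := hw g φ K g1 g2 g3
        have hd : ∀ k : ℕ, |∑ i, w i * l i ^ (2 * k) - ∑ i, w i * (χ (l i) * l i ^ (2 * k))| ≤
            (∑ i, w i * l i ^ (2 * (k + 1))) / A ^ 2 := by
          intro k
          rw [← sum_sub_distrib, sum_div]
          refine (abs_sum_le_sum_abs _ _).trans (sum_le_sum fun i _ => ?_)
          rw [← mul_sub, abs_mul, abs_of_nonneg (w0 i), mul_div_assoc]
          exact mul_le_mul_of_nonneg_left (c4 k _) (w0 i)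
        have d1 := hd j
        have d0 := hd 0
        rw [e1, e2] at d1
        have e3 : ∑ i, w i * l i ^ (2 * 0) = 1 := by simpa using w1
        rw [e3, show 2 * (0 + 1) = 2 from rfl, w2] at d0
        have e4 : ∑ i, w i * (Vd τ t (l i) * g (l i) - φ (l i)) =
            -(I 0 * ∑ i, w i * (χ (l i) * l i ^ (2 * j)) -
              I j * ∑ i, w i * (χ (l i) * l i ^ (2 * 0))) := by
          rw [mul_sum, mul_sum, ← sum_sub_distrib, ← sum_neg_distrib]
          refine sum_congr rfl fun i _ => ?_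
          rw [g4]
          ring
        rw [e4, abs_neg] at f
        generalize ∑ i, w i * (χ (l i) * l i ^ (2 * j)) = u at *
        generalize ∑ i, w i * (χ (l i) * l i ^ (2 * 0)) = v at *
        have e5 : m * I 0 - I j = (I 0 * u - I j * v) + (I 0 * (m - u) - I j * (1 - v)) := by
          ring
        have t1 := abs_add_le (I 0 * u - I j * v) (I 0 * (m - u) - I j * (1 - v))
        have t2 := abs_sub (I 0 * (m - u)) (I j * (1 - v))
        rw [abs_mul, abs_mul] at t2
        have t3 := mul_le_mul (hI2 0) d1 (abs_nonneg _) (add_nonneg (μ0 _) (μ0 _))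
        have t4 := mul_le_mul (hI2 j) d0 (abs_nonneg _) (add_nonneg (μ0 _) (μ0 _))
        rw [e5, add_div, mul_div_assoc, mul_div_assoc]
        simp only [zero_add] at t3
        linarith
      have e6 : m * μ 0 - μ j = (m * I 0 - I j) + (m * (μ 0 - I 0) - (μ j - I j)) := by ring
      have t1 := abs_add_le (m * I 0 - I j) (m * (μ 0 - I 0) - (μ j - I j))
      have t2 := abs_sub (m * (μ 0 - I 0)) (μ j - I j)
      rw [abs_mul] at t2
      have t3 := mul_le_mul_of_nonneg_left (hI 0) (abs_nonneg m)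
      have t4 := hI j
      simp only [zero_add] at t3
      rw [e6, add_assoc, add_div, add_div, mul_div_assoc]
      linarith
    rw [← sub_eq_zero, ← abs_nonpos_iff]
    exact ge_of_tendsto (Filter.Tendsto.const_div_atTop
      (Filter.tendsto_pow_atTop (α := ℝ) two_ne_zero) _)
      ((Filter.eventually_ge_atTop 1).mono step)
  exact ⟨key 1 _ _ fun N l w a b c => ⟨a, b⟩, key 2 _ _ fun N l w a b c => ⟨b, c⟩⟩

end Pool.Agent.H.MP_d042fc_an
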